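import Pool.Agent.W984.PH.Stm

set_option autoImplicit false

open Finset

namespace Pool.Agent.W298.PH

open Pool.Agent.W984.PH

section
variable {V : Type} [DecidableEq V] [Fintype V] (α β : ℝ)

lemma wt_sum : ∑ i, wt α β i = 1 := by
  simp [wt, Fin.sum_univ_three]

lemma Ex_prod (g : V → Fin 3 → ℝ) :
    Ex α β (fun ω => ∏ v, g v (ω v)) = ∏ v, ∑ i, wt α β i * g v i := by
  unfold Ex
  rw [Finset.prod_univ_sum, Fintype.piFinset_univ]
  apply Finset.sum_congr rfl
  intro ω _
  rw [Finset.prod_mul_distrib]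

lemma Ex_sum {ι : Type} (s : Finset ι) (f : ι → (V → Fin 3) → ℝ) :
    Ex α β (fun ω => ∑ i ∈ s, f i ω) = ∑ i ∈ s, Ex α β (f i) := by
  unfold Ex
  rw [Finset.sum_comm]
  apply Finset.sum_congr rfl
  intro ω _
  rw [Finset.mul_sum]

lemma indB (e : Finset V) (ω : V → Fin 3) :
    (if e ⊆ SB ω then (1 : ℝ) else 0)
      = ∏ v, (if v ∈ e then (if ω v ≠ 2 then (1 : ℝ) else 0) else 1) := by
  by_cases h : e ⊆ SB ω
  · rw [if_pos h]
    symm
    apply Finset.prod_eq_one
    intro v _
    by_cases hv : v ∈ e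
    · have h1 := h hv
      simp only [SB, Finset.mem_filter, Finset.mem_univ, true_and] at h1
      rw [if_pos hv, if_pos h1]
    · rw [if_neg hv]
  · rw [if_neg h]
    symm
    obtain ⟨v, hv, hv'⟩ := Finset.not_subset.mp h
    apply Finset.prod_eq_zero (Finset.mem_univ v)
    simp only [SB, Finset.mem_filter, Finset.mem_univ, true_and] at hv'
    rw [if_pos hv, if_neg hv']

lemma indA (e : Finset V) (ω : V → Fin 3) :
    (if Disjoint e (SA ω) then (1 : ℝ) else 0)
      = ∏ v, (if v ∈ e then (if ω v ≠ 0 then (1 : ℝ) else 0) else 1) := by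
  by_cases h : Disjoint e (SA ω)
  · rw [if_pos h]
    symm
    apply Finset.prod_eq_one
    intro v _
    by_cases hv : v ∈ e
    · have h1 := Finset.disjoint_left.mp h hv
      simp only [SA, Finset.mem_filter, Finset.mem_univ, true_and] at h1
      rw [if_pos hv, if_pos h1]
    · rw [if_neg hv]
  · rw [if_neg h]
    symm
    obtain ⟨v, hv, hv'⟩ := Finset.not_disjoint_iff.mp h
    apply Finset.prod_eq_zero (Finset.mem_univ v)
    simp only [SA, Finset.mem_filter, Finset.mem_univ, true_and] at hv'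
    rw [if_pos hv, if_neg (by simpa using hv')]

end

theorem pr : S_PR := by
  intro V _ _ α β
  refine ⟨?_, ?_, ?_⟩
  · have h := Ex_prod (V := V) α β (fun _ _ => 1)
    simpa [wt_sum] using h
  · intro e
    have h := Ex_prod (V := V) α β (fun v i => if v ∈ e then (if i ≠ 2 then (1 : ℝ) else 0) else 1)
    rw [show (fun ω : V → Fin 3 => (if e ⊆ SB ω then (1 : ℝ) else 0))
        = (fun ω => ∏ v, (if v ∈ e then (if ω v ≠ 2 then (1 : ℝ) else 0) else 1)) from
        funext (fun ω => indB e ω), h]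
    have h2 : ∀ v : V, ∑ i, wt α β i * (if v ∈ e then (if i ≠ 2 then (1 : ℝ) else 0) else 1)
        = if v ∈ e then β else 1 := by
      intro v
      by_cases hv : v ∈ e
      · simp [hv, wt, Fin.sum_univ_three]
      · simp [hv, wt, Fin.sum_univ_three]
    rw [Finset.prod_congr rfl (fun v _ => h2 v), Finset.prod_ite_mem, Finset.univ_inter,
      Finset.prod_const]
  · intro e
    have h := Ex_prod (V := V) α β (fun v i => if v ∈ e then (if i ≠ 0 then (1 : ℝ) else 0) else 1)
    rw [show (fun ω : V → Fin 3 => (if Disjoint e (SA ω) then (1 : ℝ) else 0))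
        = (fun ω => ∏ v, (if v ∈ e then (if ω v ≠ 0 then (1 : ℝ) else 0) else 1)) from
        funext (fun ω => indA e ω), h]
    have h2 : ∀ v : V, ∑ i, wt α β i * (if v ∈ e then (if i ≠ 0 then (1 : ℝ) else 0) else 1)
        = if v ∈ e then 1 - α else 1 := by
      intro v
      by_cases hv : v ∈ e
      · simp [hv, wt, Fin.sum_univ_three]
      · simp [hv, wt, Fin.sum_univ_three]
    rw [Finset.prod_congr rfl (fun v _ => h2 v), Finset.prod_ite_mem, Finset.univ_inter,
      Finset.prod_const]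

section
variable {V : Type} [DecidableEq V] [Fintype V] (α β : ℝ)

lemma Ex_sq (g : V → Fin 3 → ℝ) (hg : ∀ v, ∑ i, wt α β i * g v i = 0) (hh : V → Fin 3 → ℝ)
    (hw : ∀ u v, u ≠ v → ∃ x, (x = u ∨ x = v) ∧ ∀ i, hh x i = 1) :
    Ex α β (fun ω => (∏ v, hh v (ω v)) * (∑ v, g v (ω v)) ^ 2)
      = ∑ u, ∏ x, ∑ i, wt α β i * (hh x i * (if x = u then g u i ^ 2 else 1)) := by
  have h1 : (fun ω : V → Fin 3 => (∏ v, hh v (ω v)) * (∑ v, g v (ω v)) ^ 2)
      = fun ω => ∑ u, ∑ v, ∏ x, (hh x (ω x) * (if x = u then g u (ω x) else 1)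
          * (if x = v then g v (ω x) else 1)) := by
    funext ω
    rw [sq, Finset.sum_mul_sum, Finset.mul_sum]
    apply Finset.sum_congr rfl
    intro u _
    rw [Finset.mul_sum]
    apply Finset.sum_congr rfl
    intro v _
    rw [Finset.prod_mul_distrib, Finset.prod_mul_distrib, Finset.prod_ite_eq', Finset.prod_ite_eq',
      if_pos (Finset.mem_univ _), if_pos (Finset.mem_univ _)]
    ring
  rw [h1, Ex_sum]
  apply Finset.sum_congr rfl
  intro u _
  rw [Ex_sum, Finset.sum_eq_single u]
  · rw [Ex_prod α β (fun x i => hh x i * (if x = u then g u i else 1)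
          * (if x = u then g u i else 1))]
    apply Finset.prod_congr rfl
    intro x _
    apply Finset.sum_congr rfl
    intro i _
    by_cases hx : x = u
    · simp only [hx, if_true]
      ring
    · simp only [hx, if_false]
      ring
  · intro v _ hvu
    rw [Ex_prod α β (fun x i => hh x i * (if x = u then g u i else 1)
          * (if x = v then g v i else 1))]
    obtain ⟨x, hx, hx1⟩ := hw u v (Ne.symm hvu)
    apply Finset.prod_eq_zero (Finset.mem_univ x)
    rcases hx with rfl | rfl
    · rw [← hg x]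
      apply Finset.sum_congr rfl
      intro i _
      rw [hx1, if_pos rfl, if_neg (Ne.symm hvu)]
      ring
    · rw [← hg x]
      apply Finset.sum_congr rfl
      intro i _
      rw [hx1, if_pos rfl, if_neg hvu]
      ring
  · intro h
    exact absurd (Finset.mem_univ u) h

/-- second moment without extra event -/
lemma Ex_sq0 (g : V → Fin 3 → ℝ) (hg : ∀ v, ∑ i, wt α β i * g v i = 0) :
    Ex α β (fun ω => (∑ v, g v (ω v)) ^ 2) = ∑ u, ∑ i, wt α β i * g u i ^ 2 := by
  have h := Ex_sq α β g hg (fun _ _ => 1) (fun u v _ => ⟨u, Or.inl rfl, fun _ => rfl⟩)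
  simp only [Finset.prod_const_one, one_mul] at h
  rw [h]
  apply Finset.sum_congr rfl
  intro u _
  rw [Finset.prod_eq_single u]
  · simp only [if_true]
  · intro x _ hx
    simp only [hx, if_false, mul_one]
    exact wt_sum α β
  · intro h
    exact absurd (Finset.mem_univ u) h

/-- second moment on the event that `w` has label `0` -/
lemma Ex_sq1 (g : V → Fin 3 → ℝ) (hg : ∀ v, ∑ i, wt α β i * g v i = 0) (w : V) :
    Ex α β (fun ω => (if w ∈ SA ω then 1 else 0) * (∑ v, g v (ω v)) ^ 2)
      = ∑ u, (if u = w then α * g w 0 ^ 2 else α * ∑ i, wt α β i * g u i ^ 2) := by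
  have h := Ex_sq α β g hg (fun x i => if x = w then (if i = 0 then 1 else 0) else 1)
    (by
      intro u v huv
      by_cases hu : u = w
      · refine ⟨v, Or.inr rfl, fun i => ?_⟩
        rw [if_neg]
        rintro rfl
        exact huv hu
      · refine ⟨u, Or.inl rfl, fun i => ?_⟩
        rw [if_neg hu])
  have h2 : (fun ω : V → Fin 3 => (if w ∈ SA ω then (1 : ℝ) else 0) * (∑ v, g v (ω v)) ^ 2)
      = fun ω => (∏ v, (if v = w then (if ω v = 0 then 1 else 0) else 1))
        * (∑ v, g v (ω v)) ^ 2 := by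
    funext ω
    rw [Finset.prod_ite_eq', if_pos (Finset.mem_univ _)]
    simp only [SA, Finset.mem_filter, Finset.mem_univ, true_and]
  rw [h2, h]
  apply Finset.sum_congr rfl
  intro u _
  by_cases hu : u = w
  · subst hu
    rw [if_pos rfl, Finset.prod_eq_single u]
    · simp [wt, Fin.sum_univ_three]
    · intro x _ hx
      simp only [hx, if_false, mul_one]
      exact wt_sum α β
    · intro h
      exact absurd (Finset.mem_univ u) h
  · rw [if_neg hu, Finset.prod_eq_mul w u (Ne.symm hu)]
    · congr 1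
      · have : w ≠ u := Ne.symm hu
        simp [wt, Fin.sum_univ_three, this]
      · simp only [hu, if_false, if_true, one_mul]
    · intro x _ hx
      simp only [hx.1, hx.2, if_false, mul_one]
      exact wt_sum α β
    · intro h
      exact absurd (Finset.mem_univ w) h
    · intro h
      exact absurd (Finset.mem_univ u) h

end

theorem sm : S_SM := by
  intro V _ _ α β hα hαβ hβ y
  have eA : ∀ ω : V → Fin 3, (∑ v ∈ SA ω, y v - α * ∑ v, y v)
      = ∑ v, y v * ((if ω v = 0 then 1 else 0) - α) := by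
    intro ω
    simp only [SA, Finset.sum_filter, mul_sub, Finset.sum_sub_distrib, mul_ite, mul_one, mul_zero]
    congr 1
    rw [Finset.mul_sum]
    apply Finset.sum_congr rfl
    intro v _
    ring
  have eB : ∀ ω : V → Fin 3, (∑ v ∈ SB ω, y v - β * ∑ v, y v)
      = ∑ v, y v * ((if ω v ≠ 2 then 1 else 0) - β) := by
    intro ω
    simp only [SB, Finset.sum_filter, mul_sub, Finset.sum_sub_distrib, mul_ite, mul_one, mul_zero]
    congr 1
    rw [Finset.mul_sum]
    apply Finset.sum_congr rfl
    intro v _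
    ring
  have zA : ∀ v : V, ∑ i : Fin 3, wt α β i * (y v * ((if i = 0 then 1 else 0) - α)) = 0 := by
    intro v
    simp [wt, Fin.sum_univ_three]
    ring
  have zB : ∀ v : V, ∑ i : Fin 3, wt α β i * (y v * ((if i ≠ 2 then 1 else 0) - β)) = 0 := by
    intro v
    simp [wt, Fin.sum_univ_three]
    ring
  have qA : ∀ v : V, ∑ i : Fin 3, wt α β i * (y v * ((if i = 0 then 1 else 0) - α)) ^ 2
      = α * (1 - α) * y v ^ 2 := by
    intro v
    simp [wt, Fin.sum_univ_three]
    ring
  have qB : ∀ v : V, ∑ i : Fin 3, wt α β i * (y v * ((if i ≠ 2 then 1 else 0) - β)) ^ 2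
      = β * (1 - β) * y v ^ 2 := by
    intro v
    simp [wt, Fin.sum_univ_three]
    ring
  have hα1 : α ≤ 1 := le_trans hαβ hβ
  have hβ0 : 0 ≤ β := le_trans hα hαβ
  refine ⟨?_, ?_, ?_, ?_⟩
  · simp only [eA]
    rw [Ex_sq0 α β (fun v i => y v * ((if i = 0 then 1 else 0) - α)) zA, Finset.mul_sum]
    apply Finset.sum_le_sum
    intro v _
    rw [qA]
    nlinarith [sq_nonneg (y v), mul_nonneg (mul_nonneg hα hα) (sq_nonneg (y v))]
  · simp only [eB]
    rw [Ex_sq0 α β (fun v i => y v * ((if i ≠ 2 then 1 else 0) - β)) zB, Finset.mul_sum]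
    apply Finset.sum_le_sum
    intro v _
    rw [qB]
    nlinarith [sq_nonneg (y v), mul_nonneg (mul_nonneg hβ0 hβ0) (sq_nonneg (y v))]
  · intro w
    simp only [eA]
    rw [Ex_sq1 α β (fun v i => y v * ((if i = 0 then 1 else 0) - α)) zA w]
    have e1 : α * (α * ∑ v, y v ^ 2 + y w ^ 2)
        = ∑ u, (α * α * y u ^ 2 + if u = w then α * y w ^ 2 else 0) := by
      rw [Finset.sum_add_distrib, Finset.sum_ite_eq', if_pos (Finset.mem_univ _), ← Finset.mul_sum]
      ring
    rw [e1]
    apply Finset.sum_le_sum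
    intro u _
    by_cases hu : u = w
    · subst hu
      simp only [if_true]
      have h1 : (1 - α) ^ 2 ≤ 1 := by nlinarith
      have h2 : 0 ≤ α * y u ^ 2 := mul_nonneg hα (sq_nonneg _)
      have h3 : 0 ≤ α * α * y u ^ 2 := mul_nonneg (mul_nonneg hα hα) (sq_nonneg _)
      nlinarith [mul_le_mul_of_nonneg_left h1 h2]
    · simp only [hu, if_false]
      rw [qA]
      have h2 : 0 ≤ α * α * y u ^ 2 := mul_nonneg (mul_nonneg hα hα) (sq_nonneg _)
      nlinarith [mul_nonneg hα h2]
  · intro w
    simp only [eB]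
    rw [Ex_sq1 α β (fun v i => y v * ((if i ≠ 2 then 1 else 0) - β)) zB w]
    have e1 : α * (β * ∑ v, y v ^ 2 + y w ^ 2)
        = ∑ u, (α * β * y u ^ 2 + if u = w then α * y w ^ 2 else 0) := by
      rw [Finset.sum_add_distrib, Finset.sum_ite_eq', if_pos (Finset.mem_univ _), ← Finset.mul_sum]
      ring
    rw [e1]
    apply Finset.sum_le_sum
    intro u _
    by_cases hu : u = w
    · subst hu
      have h0 : ((0 : Fin 3) ≠ 2) := by decide
      simp only [if_true, h0, ne_eq, not_false_eq_true]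
      have h1 : (1 - β) ^ 2 ≤ 1 := by nlinarith
      have h2 : 0 ≤ α * y u ^ 2 := mul_nonneg hα (sq_nonneg _)
      have h3 : 0 ≤ α * β * y u ^ 2 := mul_nonneg (mul_nonneg hα hβ0) (sq_nonneg _)
      nlinarith [mul_le_mul_of_nonneg_left h1 h2]
    · simp only [hu, if_false]
      rw [qB]
      have h2 : 0 ≤ α * β * y u ^ 2 := mul_nonneg (mul_nonneg hα hβ0) (sq_nonneg _)
      nlinarith [mul_nonneg hβ0 h2]

end Pool.Agent.W298.PH
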