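import Pool.Agent.W984.PH.Stm

set_option autoImplicit false

open Finset

namespace Pool.Agent.W298.PH

open Pool.Agent.W984.PH

lemma desc_eq (m : ℕ) (hm : 1 ≤ m) (r : ℕ) :
    (m.descFactorial r : ℝ) / (m : ℝ) ^ r = fp r (1 / (m : ℝ)) := by
  have hm' : (m : ℝ) ≠ 0 := by
    have : (0 : ℝ) < m := by exact_mod_cast hm
    exact ne_of_gt this
  induction r with
  | zero => simp [fp_zero]
  | succ r ih =>
    rw [fp_succ, ← ih, Nat.descFactorial_succ]
    have h : (((m - r) * m.descFactorial r : ℕ) : ℝ) = ((m : ℝ) - r) * (m.descFactorial r : ℝ) := by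
      by_cases hr : r ≤ m
      · rw [Nat.cast_mul, Nat.cast_sub hr]
      · have : m.descFactorial r = 0 := Nat.descFactorial_eq_zero_iff_lt.mpr (by omega)
        simp [this]
    rw [h]
    field_simp
    ring

lemma sum_bound (m r : ℕ) (E : Finset (Finset (Fin m))) (hE : ∀ e ∈ E, e.card = r)
    (x : Fin m → ℝ) (hx : ∀ i, 0 ≤ x i) :
    ∑ e ∈ E, ∏ i ∈ e, x i ≤ es x univ r := by
  unfold es
  apply Finset.sum_le_sum_of_subset_of_nonneg
  · intro e he
    exact Finset.mem_powersetCard.mpr ⟨Finset.subset_univ _, hE e he⟩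
  · intro e _ _
    exact Finset.prod_nonneg (fun i _ => hx i)

lemma sum_bound1 (m r : ℕ) (E : Finset (Finset (Fin m))) (hE : ∀ e ∈ E, e.card = r)
    (x : Fin m → ℝ) (hx : ∀ i, 0 ≤ x i) (hs : ∑ i, x i = 1) :
    ∑ e ∈ E, ∏ i ∈ e, x i ≤ 1 / (r.factorial : ℝ) := by
  have h1 := sum_bound m r E hE x hx
  have h2 := es_le_pow x univ (fun v _ => hx v) r
  rw [hs, one_pow] at h2
  have h3 : (0 : ℝ) < (r.factorial : ℝ) := by exact_mod_cast Nat.factorial_pos r
  rw [le_div_iff₀ h3]
  nlinarith [mul_le_mul_of_nonneg_left h1 h3.le]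

theorem perf (hmac : S_MAC) : S_PERF := by
  intro r hr lam hlam t F ht
  have hf : (0 : ℝ) < (r.factorial : ℝ) := by exact_mod_cast Nat.factorial_pos r
  have hcast : ((t - 1 : ℕ) : ℝ) = (t : ℝ) - 1 := by
    rw [Nat.cast_sub (by omega)]
    simp
  have hm0 : 1 ≤ t - 1 := by omega
  have hm0' : (0 : ℝ) < ((t - 1 : ℕ) : ℝ) := by exact_mod_cast hm0
  set c : ℝ := fp r (1 / ((t - 1 : ℕ) : ℝ)) with hc
  have hc0 : 0 ≤ c := by
    rw [hc, ← desc_eq (t - 1) hm0 r]
    positivity
  have hbdd : ∀ (m : ℕ) (E : Finset (Finset (Fin m))), (∀ e ∈ E, e.card = r) →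
      BddAbove {y : ℝ | ∃ x : Fin m → ℝ, (∀ i, 0 ≤ x i) ∧ ∑ i, x i = 1 ∧
        y = ∑ e ∈ E, ∏ i ∈ e, x i} := by
    intro m E hE
    refine ⟨1 / (r.factorial : ℝ), ?_⟩
    rintro y ⟨x, hx, hs, rfl⟩
    exact sum_bound1 m r E hE x hx hs
  have hlam1 : ∀ (m : ℕ) (E : Finset (Finset (Fin m))), (∀ e ∈ E, e.card = r) →
      (r.factorial : ℝ) * lam m E ≤ 1 := by
    intro m E hE
    have : lam m E ≤ 1 / (r.factorial : ℝ) := by
      rw [hlam]
      apply Real.sSup_le
      · rintro y ⟨x, hx, hs, rfl⟩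
        exact sum_bound1 m r E hE x hx hs
      · positivity
    rw [le_div_iff₀ hf] at this
    linarith
  have hcomp : (r.factorial : ℝ) * lam (t - 1)
      (Finset.powersetCard r (Finset.univ : Finset (Fin (t - 1)))) = c := by
    apply le_antisymm
    · have : lam (t - 1) (Finset.powersetCard r (Finset.univ : Finset (Fin (t - 1))))
          ≤ c / (r.factorial : ℝ) := by
        rw [hlam]
        apply Real.sSup_le
        · rintro y ⟨x, hx, hs, rfl⟩
          have h := hmac (Fin (t - 1)) x univ (fun v _ => hx v) (by simpa using hm0) r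
          rw [hs, one_pow, mul_one, Finset.card_univ, Fintype.card_fin] at h
          rw [le_div_iff₀ hf]
          unfold es at h
          linarith
        · positivity
      rw [le_div_iff₀ hf] at this
      linarith
    · have hmem : (((t - 1).choose r : ℕ) : ℝ) * (1 / ((t - 1 : ℕ) : ℝ)) ^ r
          ≤ lam (t - 1) (Finset.powersetCard r (Finset.univ : Finset (Fin (t - 1)))) := by
        rw [hlam]
        apply le_csSup (hbdd _ _ (fun e he => (Finset.mem_powersetCard.mp he).2))
        refine ⟨fun _ => 1 / ((t - 1 : ℕ) : ℝ), fun _ => by positivity, ?_, ?_⟩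
        · rw [Finset.sum_const, Finset.card_univ, Fintype.card_fin, nsmul_eq_mul]
          field_simp
        · rw [Finset.sum_congr rfl (g := fun _ => (1 / ((t - 1 : ℕ) : ℝ)) ^ r)]
          · rw [Finset.sum_const, Finset.card_powersetCard, Finset.card_univ, Fintype.card_fin,
              nsmul_eq_mul]
          · intro e he
            rw [Finset.prod_const, (Finset.mem_powersetCard.mp he).2]
      have h2 : c = (r.factorial : ℝ) * ((((t - 1).choose r : ℕ) : ℝ)
          * (1 / ((t - 1 : ℕ) : ℝ)) ^ r) := by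
        rw [hc, ← desc_eq (t - 1) hm0 r, Nat.descFactorial_eq_factorial_mul_choose]
        push_cast
        rw [one_div, inv_pow]
        ring
      rw [h2]
      exact mul_le_mul_of_nonneg_left hmem hf.le
  have hfree : ¬ ∃ f : Fin t → Fin (t - 1), Function.Injective f ∧ ∀ e ∈ F, e.image f ∈
      Finset.powersetCard r (Finset.univ : Finset (Fin (t - 1))) := by
    rintro ⟨f, hf1, _⟩
    have := Fintype.card_le_of_injective f hf1
    rw [Fintype.card_fin, Fintype.card_fin] at this
    omega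
  have hbig : BddAbove {y : ℝ | ∃ m : ℕ, ∃ G : Finset (Finset (Fin m)), (∀ e ∈ G, e.card = r) ∧
          (¬ ∃ f : Fin t → Fin m, Function.Injective f ∧ ∀ e ∈ F, e.image f ∈ G) ∧
          y = (r.factorial : ℝ) * lam m G} := by
    refine ⟨1, ?_⟩
    rintro y ⟨m, G, hG, _, rfl⟩
    exact hlam1 m G hG
  rw [hcomp]
  constructor
  · intro heq m F' hF' hfr x hx hs
    rw [← hcast, ← hc, ← heq]
    calc (r.factorial : ℝ) * ∑ e ∈ F', ∏ i ∈ e, x i
        ≤ (r.factorial : ℝ) * lam m F' := by
          apply mul_le_mul_of_nonneg_left _ hf.le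
          rw [hlam]
          exact le_csSup (hbdd m F' hF') ⟨x, hx, hs, rfl⟩
      _ ≤ _ := le_csSup hbig ⟨m, F', hF', hfr, rfl⟩
  · intro hLB
    apply le_antisymm
    · apply Real.sSup_le _ hc0
      rintro y ⟨m, G, hG, hfr, rfl⟩
      have : lam m G ≤ c / (r.factorial : ℝ) := by
        rw [hlam]
        apply Real.sSup_le
        · rintro y ⟨x, hx, hs, rfl⟩
          have h := hLB m G hG hfr x hx hs
          rw [← hcast, ← hc] at h
          rw [le_div_iff₀ hf]
          linarith
        · positivity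
      rw [le_div_iff₀ hf] at this
      linarith
    · apply le_csSup hbig
      exact ⟨t - 1, _, fun e he => (Finset.mem_powersetCard.mp he).2, hfree, hcomp.symm⟩

end Pool.Agent.W298.PH
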